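import Mathlib
import Pool.Agent.H.MP_84ba36_lc.A

set_option autoImplicit false

namespace Pool.Agent.Results.MP_93aff1_lc.No

open Set Filter Function Cardinal Pool.Agent.H.MP_77d395_lc Pool.Agent.H.MP_84ba36_lc

theorem reg (h : I → I) (c : ∀ a, (h ⁻¹' Iic a).Countable) : ¬ {a | a ≤ h a}.Countable := fun e => by
  have bd : ∀ s : Set I, s.Countable → ∃ b, ∀ a ∈ s, a < b := fun s c =>
    (unc (c.biUnion fun a _ => cI a)).imp fun b hb a ha => not_le.1 fun g => hb (mem_biUnion ha g)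
  choose g hg using fun a => bd _ (c a)
  obtain ⟨a, ha⟩ := bd _ e
  let d : ℕ → I := fun n => g^[n] a
  obtain ⟨b, hb, hm⟩ := wellFounded_lt.has_min {b | ∀ n, d n ≤ b}
    ((bd _ (countable_range d)).imp fun b h n => (h _ ⟨n, rfl⟩).le)
  obtain ⟨n, hn⟩ := not_forall.1 fun c => hm (h b) c (not_le.1 fun c => (ha b c).not_ge (hb 0))
  exact (hg (d n) b (not_le.1 hn).le).not_ge (iterate_succ_apply' g n a ▸ hb (n + 1))

theorem result : ∃ A B : Set (ℕ → Bool), (∀ U, IsOpen U → U.Nonempty → #↥(A ∩ U) = ℵ₁) ∧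
    (∀ U, IsOpen U → U.Nonempty → #↥(B ∩ U) = ℵ₁) ∧ ¬ ∃ f : (ℕ → Bool) → ℕ → Bool,
      (∀ k x y, (∀ i < k, x i = y i) → ∀ i < k, f x i = f y i) ∧ InjOn f A ∧ MapsTo f A B := by
  obtain ⟨r, hr⟩ := rr
  obtain ⟨t, ht⟩ := fr ℕ
  choose ξ hξ using fun a => (cI a).exists_eq_range nonempty_Iic
  let Z : I → ℕ → Bool := fun a n => n.unpair.2 == n.unpair.1 && r a (t n.unpair.1)
  let Y : I → ℕ → Bool := fun a n => r (ξ a n.unpair.2) (t n.unpair.1)
  have p : ∀ i : ℕ → ℕ, Tendsto (fun k => Nat.pair k (i k)) atTop atTop := fun i =>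
    tendsto_atTop_mono (fun k => Nat.left_le_pair _ _) tendsto_id
  have z : ∀ a b, Z a =ᶠ[atTop] Z b → a = b := fun a b c => hr (ht _ _
    (((p id).eventually c).mono fun n h => by simpa [Z] using h))
  refine ⟨_, _, den z, den (Y := Y) fun a b c => Iic_injective ?_, fun ⟨f, f1, f2, f3⟩ => ?_⟩
  · rw [hξ, hξ, show ξ a = ξ b from funext fun i => hr (ht _ _ (((p fun _ => i).eventually c).mono fun n h => by
      simpa [Y] using h))]
  have m : ∀ a, Z a ∈ Cl Z := fun a => ⟨a, .rfl⟩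
  choose h hh using fun a => f3 (m a)
  refine reg h (fun a => (((cI a).biUnion fun c _ => cls (Y c)).preimage (f := fun a => f (Z a))
    fun a b c => z a b (f2 (m a) (m b) c ▸ .rfl)).mono fun b c =>
      mem_preimage.2 (mem_biUnion (show h b ∈ Iic a from c) (hh b))) ?_
  choose i hi using fun a : {a | a ≤ h a} => (hξ (h a)).le a.2
  choose K hK using fun a => eventually_atTop.1 (hh a)
  refine Injective.countable (f := fun a => (i a, K a, (List.range (K a + i a + 1)).map (r a ∘ t)))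
    fun a b e => Subtype.ext (hr (ht _ _ (.of_eq (funext fun k => ?_))))
  simp only [Prod.mk.injEq] at e
  obtain ⟨e1, e2, e3⟩ := e
  rw [← e1, ← e2] at e3
  induction k using Nat.strong_induction_on with | _ k ih => ?_
  by_cases c : k < K a + i a + 1
  · exact List.map_inj_left.1 e3 k (List.mem_range.2 c)
  have l := Nat.left_le_pair k (i a)
  have := f1 (Nat.pair k k) (Z a) (Z b) (fun n c => ?_) _ (Nat.pair_lt_pair_right k
    (show i a < k by omega))
  · rw [hK a _ (by omega), hK b _ (by omega)] at this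
    simpa [Y, hi, e1 ▸ hi b] using this
  by_cases d : n.unpair.2 = n.unpair.1
  · simp only [Z, show r a (t n.unpair.1) = _ from ih _ (not_le.1 fun g => c.not_ge (by
      conv_rhs => rw [← n.pair_unpair, d]
      exact g.eq_or_lt.elim (· ▸ le_rfl) fun g => ((Nat.pair_lt_pair_left _ g).trans
        (Nat.pair_lt_pair_right _ g)).le)), comp]
  · simp [Z, beq_false_of_ne d]

end Pool.Agent.Results.MP_93aff1_lc.No
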